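import Mathlib

set_option autoImplicit false

open scoped ENNReal NNReal ComplexOrder

namespace Pool.Agent.Helper964.SB

variable {H : Type*} [NormedAddCommGroup H] [InnerProductSpace ℂ H] [CompleteSpace H]

structure Tr (M : VonNeumannAlgebra H) (t : (H →L[ℂ] H) → ℂ) : Prop where
  add : ∀ x ∈ M, ∀ y ∈ M, t (x + y) = t x + t y
  smul : ∀ c : ℂ, ∀ x ∈ M, t (c • x) = c * t x
  pos : ∀ x ∈ M, 0 ≤ (t (star x * x)).re ∧ (t (star x * x)).im = 0
  one : t 1 = 1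
  tr : ∀ x ∈ M, ∀ y ∈ M, t (x * y) = t (y * x)

variable {M : VonNeumannAlgebra H} {t : (H →L[ℂ] H) → ℂ}

theorem smul_mem' {x : H →L[ℂ] H} (hx : x ∈ M) (c : ℂ) : c • x ∈ M :=
  M.toStarSubalgebra.smul_mem hx c

theorem mem_of_commute {x : H →L[ℂ] H}
    (hx : ∀ y ∈ M.commutant, Commute x y) : x ∈ M := by
  rw [← M.commutant_commutant, VonNeumannAlgebra.mem_commutant_iff]
  intro g hg
  exact (hx g hg).eq.symm

theorem commute_of_mem {x y : H →L[ℂ] H} (hx : x ∈ M) (hy : y ∈ M.commutant) : Commute x y := by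
  rw [VonNeumannAlgebra.mem_commutant_iff] at hy
  exact hy x hx

theorem sqrt_mem {a : H →L[ℂ] H} (ha : a ∈ M) : CFC.sqrt a ∈ M := by
  apply mem_of_commute
  intro y hy
  rw [CFC.sqrt]
  exact Commute.cfcₙ_nnreal (commute_of_mem ha hy) _

theorem isClosed_M (M : VonNeumannAlgebra H) : IsClosed (M : Set (H →L[ℂ] H)) := by
  rw [← M.centralizer_centralizer]
  exact Set.isClosed_centralizer _

theorem inv_mem {x y : H →L[ℂ] H} (hx : x ∈ M) (h1 : x * y = 1) (h2 : y * x = 1) : y ∈ M := by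
  apply mem_of_commute
  intro z hz
  have h := commute_of_mem hx hz
  show y * z = z * y
  calc y * z = y * z * (x * y) := by rw [h1, mul_one]
    _ = y * (z * x) * y := by simp only [mul_assoc]
    _ = y * (x * z) * y := by rw [h.eq]
    _ = (y * x) * z * y := by simp only [mul_assoc]
    _ = z * y := by rw [h2, one_mul]

theorem Tr.zero (h : Tr M t) : t 0 = 0 := by
  have := h.smul 0 0 (zero_mem M)
  simpa using this

theorem Tr.neg (h : Tr M t) {x : H →L[ℂ] H} (hx : x ∈ M) : t (-x) = - t x := by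
  have := h.smul (-1) x hx
  simpa using this

theorem Tr.sub (h : Tr M t) {x y : H →L[ℂ] H} (hx : x ∈ M) (hy : y ∈ M) :
    t (x - y) = t x - t y := by
  rw [sub_eq_add_neg, h.add x hx _ (neg_mem hy), h.neg hy, sub_eq_add_neg]

theorem Tr.map_star (h : Tr M t) {y : H →L[ℂ] H} (hy : y ∈ M) : t (star y) = star (t y) := by
  have hs : star y ∈ M := star_mem hy
  have h1 := h.pos (1 + y) (add_mem (one_mem M) hy)
  have h2 := h.pos (1 + Complex.I • y) (add_mem (one_mem M) (smul_mem' hy _))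
  have h0 := h.pos y hy
  have e1 : star (1 + y) * (1 + y) = 1 + (y + (star y + star y * y)) := by
    simp only [star_add, star_one, add_mul, mul_add, one_mul, mul_one]
    abel
  have e2 : star (1 + Complex.I • y) * (1 + Complex.I • y)
      = 1 + (Complex.I • y + ((-Complex.I) • star y + star y * y)) := by
    have hI : star Complex.I = -Complex.I := Complex.conj_I
    have hII : Complex.I * (-Complex.I) = 1 := by simp
    simp only [star_add, star_one, star_smul, add_mul, mul_add, one_mul, mul_one, smul_mul_assoc,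
      mul_smul_comm, smul_add, hI]
    rw [smul_smul, hII, one_smul]
    abel
  have m1 : star y * y ∈ M := mul_mem hs hy
  rw [e1, h.add _ (one_mem M) _ (add_mem hy (add_mem hs m1)), h.add _ hy _ (add_mem hs m1),
    h.add _ hs _ m1] at h1
  rw [e2, h.add _ (one_mem M) _ (add_mem (smul_mem' hy _) (add_mem (smul_mem' hs _) m1)),
    h.add _ (smul_mem' hy _) _ (add_mem (smul_mem' hs _) m1),
    h.add _ (smul_mem' hs _) _ m1, h.smul _ _ hy, h.smul _ _ hs] at h2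
  have a1 := h1.2
  have a2 := h2.2
  have a0 := h0.2
  rw [h.one] at a1 a2
  simp at a1 a2
  apply Complex.ext
  · simp; linarith
  · simp; linarith

theorem Tr.cauchy (h : Tr M t) {y : H →L[ℂ] H} (hy : y ∈ M) :
    ‖t y‖ ^ 2 ≤ (t (star y * y)).re := by
  have hs : star y ∈ M := star_mem hy
  set c : ℂ := t y with hc
  have h1 := (h.pos (y - c • 1) (sub_mem hy (smul_mem' (one_mem M) _))).1
  have e1 : star (y - c • (1 : H →L[ℂ] H)) * (y - c • (1 : H →L[ℂ] H))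
      = star y * y - (c • star y + ((star c) • y - (star c * c) • (1 : H →L[ℂ] H))) := by
    simp only [star_sub, star_smul, star_one, sub_mul, mul_sub, smul_mul_assoc, one_mul,
      mul_smul_comm, mul_one, smul_sub]
    rw [smul_smul, mul_comm c (star c)]
    abel
  have m1 : star y * y ∈ M := mul_mem hs hy
  rw [e1, h.sub m1 (add_mem (smul_mem' hs _) (sub_mem (smul_mem' hy _) (smul_mem' (one_mem M) _))),
    h.add _ (smul_mem' hs _) _ (sub_mem (smul_mem' hy _) (smul_mem' (one_mem M) _)),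
    h.sub (smul_mem' hy _) (smul_mem' (one_mem M) _), h.smul _ _ hs, h.smul _ _ hy,
    h.smul _ _ (one_mem M), h.one, h.map_star hy, ← hc] at h1
  have e2 : (t (star y * y) - (c * star c + (star c * c - star c * c * 1))).re
      = (t (star y * y)).re - ‖c‖ ^ 2 := by
    have : c * star c = ((‖c‖ ^ 2 : ℝ) : ℂ) := by
      rw [show (star c) = (starRingEnd ℂ) c from rfl, Complex.mul_conj, Complex.normSq_eq_norm_sq]
    rw [mul_one, sub_self, add_zero, this, Complex.sub_re, Complex.ofReal_re]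
  rw [e2] at h1
  linarith

theorem Tr.mono_pos (h : Tr M t) {a : H →L[ℂ] H} (ha : a ∈ M) (h0 : 0 ≤ a) : 0 ≤ (t a).re := by
  have e : star (CFC.sqrt a) * CFC.sqrt a = a := by
    have hs : IsSelfAdjoint (CFC.sqrt a) := IsSelfAdjoint.of_nonneg (CFC.sqrt_nonneg a)
    rw [hs.star_eq, CFC.sqrt_mul_sqrt_self a h0]
  have := (h.pos (CFC.sqrt a) (sqrt_mem ha)).1
  rwa [e] at this

theorem tau_norm (h : Tr M t) {y : H →L[ℂ] H} (hy : y ∈ M) : ‖t y‖ ≤ ‖y‖ := by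
  have hs : star y ∈ M := star_mem hy
  have m1 : star y * y ∈ M := mul_mem hs hy
  have h1 := h.cauchy hy
  have h2 : (0 : H →L[ℂ] H) ≤ ((‖y‖ ^ 2 : ℝ) : ℂ) • (1 : H →L[ℂ] H) - star y * y := by
    rw [sub_nonneg]
    have := CStarAlgebra.star_mul_le_algebraMap_norm_sq (a := y)
    refine this.trans (le_of_eq ?_)
    rw [Algebra.algebraMap_eq_smul_one]
    rfl
  have h3 := h.mono_pos (sub_mem (smul_mem' (one_mem M) _) m1) h2
  rw [h.sub (smul_mem' (one_mem M) _) m1, h.smul _ _ (one_mem M), h.one, mul_one, Complex.sub_re,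
    Complex.ofReal_re] at h3
  have h4 : ‖t y‖ ^ 2 ≤ ‖y‖ ^ 2 := by linarith
  exact (pow_le_pow_iff_left₀ (norm_nonneg _) (norm_nonneg _) two_ne_zero).1 h4

theorem Tr.nontrivial (h : Tr M t) : Nontrivial H := by
  by_contra hn
  rw [not_nontrivial_iff_subsingleton] at hn
  have h1 : (1 : H →L[ℂ] H) = 0 := by
    ext x
    exact Subsingleton.elim _ _
  have := h.one
  rw [h1, h.zero] at this
  exact zero_ne_one this

/-- geometric bound of the norms of powers above the spectral radius -/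
theorem pow_norm_le {b : H →L[ℂ] H} {r : ℝ≥0} (hr : spectralRadius ℂ b < r) :
    ∃ K : ℝ, 0 ≤ K ∧ ∀ n : ℕ, ‖b ^ n‖ ≤ K * (r : ℝ) ^ n := by
  have h1 := spectrum.pow_nnnorm_pow_one_div_tendsto_nhds_spectralRadius b
  have h2 : ∀ᶠ n : ℕ in Filter.atTop, (‖b ^ n‖₊ : ℝ≥0∞) ^ (1 / n : ℝ) < r :=
    h1.eventually (gt_mem_nhds hr)
  obtain ⟨N, hN⟩ := (h2.and (Filter.eventually_ge_atTop 1)).exists_forall_of_atTop
  have hr0 : 0 < (r : ℝ) := by
    have : (0 : ℝ≥0∞) < r := lt_of_le_of_lt zero_le hr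
    exact_mod_cast this
  have h3 : ∀ n ≥ N, ‖b ^ n‖ ≤ (r : ℝ) ^ n := by
    intro n hn
    obtain ⟨h4, h5⟩ := hN n hn
    have hn0 : (n : ℝ) ≠ 0 := by positivity
    have h6 : ((‖b ^ n‖₊ : ℝ≥0∞) ^ (1 / n : ℝ)) ^ (n : ℝ) ≤ (r : ℝ≥0∞) ^ (n : ℝ) :=
      ENNReal.rpow_le_rpow h4.le (by positivity)
    rw [← ENNReal.rpow_mul, one_div, inv_mul_cancel₀ hn0, ENNReal.rpow_one, ENNReal.rpow_natCast] at h6
    have h7 : ‖b ^ n‖₊ ≤ r ^ n := by exact_mod_cast h6
    exact_mod_cast h7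
  refine ⟨1 + ∑ i ∈ Finset.range N, ‖b ^ i‖ / (r : ℝ) ^ i, by positivity, ?_⟩
  intro n
  by_cases hn : N ≤ n
  · refine (h3 n hn).trans ?_
    have : 0 ≤ ∑ i ∈ Finset.range N, ‖b ^ i‖ / (r : ℝ) ^ i := by positivity
    have h8 : 0 ≤ (r : ℝ) ^ n := by positivity
    nlinarith
  · push Not at hn
    have h9 : ‖b ^ n‖ / (r : ℝ) ^ n ≤ ∑ i ∈ Finset.range N, ‖b ^ i‖ / (r : ℝ) ^ i :=
      Finset.single_le_sum (f := fun i => ‖b ^ i‖ / (r : ℝ) ^ i) (fun i _ => by positivity)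
        (Finset.mem_range.2 hn)
    have h8 : 0 < (r : ℝ) ^ n := by positivity
    rw [div_le_iff₀ h8] at h9
    nlinarith

theorem pow_mem' {b : H →L[ℂ] H} (hb : b ∈ M) (n : ℕ) : b ^ n ∈ M := pow_mem hb n

theorem rota (h : Tr M t) {b : H →L[ℂ] H} (hb : b ∈ M) {ρ : ℝ} (hρ0 : 0 < ρ)
    (hρ : spectralRadius ℂ b < ENNReal.ofReal ρ) (k : ℕ) : ‖t (b ^ k)‖ ≤ ρ ^ k := by
  obtain ⟨r, hr1, hr2⟩ := ENNReal.lt_iff_exists_nnreal_btwn.1 hρ
  have hr3 : (r : ℝ) < ρ := by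
    rw [← ENNReal.ofReal_coe_nnreal] at hr2
    exact (ENNReal.ofReal_lt_ofReal_iff hρ0).1 hr2
  obtain ⟨K, hK0, hK⟩ := pow_norm_le hr1
  set c : ℝ := (ρ ^ 2)⁻¹ with hc
  have hc0 : 0 < c := by positivity
  set f : ℕ → (H →L[ℂ] H) := fun n => ((c ^ n : ℝ) : ℂ) • (star (b ^ n) * b ^ n) with hf
  have hfM : ∀ n, f n ∈ M := fun n =>
    smul_mem' (mul_mem (star_mem (pow_mem' hb n)) (pow_mem' hb n)) _
  have hfn : ∀ n, ‖f n‖ ≤ K ^ 2 * (((r : ℝ) / ρ) ^ 2) ^ n := by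
    intro n
    have h1 : ‖star (b ^ n) * b ^ n‖ = ‖b ^ n‖ ^ 2 := by
      rw [CStarRing.norm_star_mul_self, sq]
    have h2 : ‖f n‖ = c ^ n * ‖b ^ n‖ ^ 2 := by
      simp only [hf]
      rw [norm_smul, h1, Complex.norm_real, Real.norm_of_nonneg (by positivity)]
    rw [h2]
    have h3 := hK n
    calc c ^ n * ‖b ^ n‖ ^ 2 ≤ c ^ n * (K * (r : ℝ) ^ n) ^ 2 := by gcongr
      _ = K ^ 2 * (((r : ℝ) / ρ) ^ 2) ^ n := by
          rw [hc, div_pow, div_pow, mul_pow, inv_pow, ← pow_mul, ← pow_mul, ← pow_mul, mul_comm n 2]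
          field_simp
  have hq : ((r : ℝ) / ρ) ^ 2 < 1 := by
    rw [div_pow, div_lt_one (by positivity)]
    exact pow_lt_pow_left₀ hr3 r.2 two_ne_zero
  have hsum : Summable f := by
    refine Summable.of_norm_bounded (g := fun n => K ^ 2 * (((r : ℝ) / ρ) ^ 2) ^ n) ?_ hfn
    exact (summable_geometric_of_lt_one (by positivity) hq).mul_left _
  set hh : H →L[ℂ] H := ∑' n, f n with hhh
  have hhM : hh ∈ M := by
    refine (isClosed_M M).mem_of_tendsto hsum.hasSum.tendsto_sum_nat (Filter.Eventually.of_forall ?_)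
    intro n
    exact sum_mem (fun i _ => hfM i)
  have hfpos : ∀ n, 0 ≤ f n := by
    intro n
    simp only [hf]
    exact smul_nonneg (by exact_mod_cast (pow_nonneg hc0.le n)) (star_mul_self_nonneg _)
  have hsplit : hh = 1 + ∑' n, f (n + 1) := by
    rw [hhh, hsum.tsum_eq_zero_add]
    simp [hf]
  have hcρ : ρ ^ 2 * c = 1 := by
    rw [hc]
    field_simp
  have e1 : ∀ n, star b * f n * b = ((ρ ^ 2 : ℝ) : ℂ) • f (n + 1) := by
    intro n
    simp only [hf]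
    rw [mul_smul_comm, smul_mul_assoc, smul_smul, ← Complex.ofReal_mul]
    have e2 : c ^ n = ρ ^ 2 * c ^ (n + 1) := by
      calc c ^ n = c ^ n * (ρ ^ 2 * c) := by rw [hcρ, mul_one]
        _ = ρ ^ 2 * c ^ (n + 1) := by ring
    rw [← e2, pow_succ b n, star_mul]
    simp only [mul_assoc]
  have hstep : star b * hh * b = ((ρ ^ 2 : ℝ) : ℂ) • (hh - 1) := by
    rw [hsplit, add_sub_cancel_left, ← hsplit, hhh]
    rw [← hsum.tsum_mul_left, ← (hsum.mul_left _).tsum_mul_right, ← tsum_const_smul'']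
    exact tsum_congr e1
  have hge : 1 ≤ hh := by
    rw [hsplit]
    exact le_add_of_nonneg_right (tsum_nonneg (fun n => hfpos (n + 1)))
  have hh0 : 0 ≤ hh := tsum_nonneg hfpos
  have hu : IsUnit hh := CStarAlgebra.isUnit_of_le 1 hge
  have hus : IsUnit (CFC.sqrt hh) := (CFC.isUnit_sqrt_iff hh hh0).2 hu
  set s : H →L[ℂ] H := CFC.sqrt hh with hs
  have hsM : s ∈ M := sqrt_mem hhM
  have hss : s * s = hh := CFC.sqrt_mul_sqrt_self hh hh0
  have hsa : star s = s := (IsSelfAdjoint.of_nonneg (CFC.sqrt_nonneg hh)).star_eq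
  obtain ⟨v, hv⟩ := hus
  set w : H →L[ℂ] H := ((v⁻¹ : (H →L[ℂ] H)ˣ) : H →L[ℂ] H) with hw
  have h1 : s * w = 1 := by rw [← hv, hw, Units.mul_inv]
  have h2 : w * s = 1 := by rw [← hv, hw, Units.inv_mul]
  have hwM : w ∈ M := inv_mem hsM h1 h2
  have hwa : star w = w := by
    have h3 : star w * s = 1 := by
      calc star w * s = star w * star s := by rw [hsa]
        _ = star (s * w) := (star_mul _ _).symm
        _ = 1 := by rw [h1, star_one]
    calc star w = star w * (s * w) := by rw [h1, mul_one]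
      _ = (star w * s) * w := by rw [mul_assoc]
      _ = w := by rw [h3, one_mul]
  set a : H →L[ℂ] H := s * b * w with ha
  have haM : a ∈ M := mul_mem (mul_mem hsM hb) hwM
  have haa : star a * a = ((ρ ^ 2 : ℝ) : ℂ) • (1 - w * w) := by
    have e3 : star a * a = w * (star b * hh * b) * w := by
      rw [ha, star_mul, star_mul, hwa, hsa, ← hss]
      simp only [mul_assoc]
    have e4 : w * hh * w = 1 := by
      rw [← hss, ← mul_assoc, h2, one_mul, h1]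
    rw [e3, hstep, mul_smul_comm, smul_mul_assoc, mul_sub, sub_mul, e4, mul_one]
  have := h.nontrivial
  have hna : ‖a‖ ≤ ρ := by
    have h5 : star a * a ≤ ((ρ ^ 2 : ℝ) : ℂ) • (1 : H →L[ℂ] H) := by
      rw [haa, smul_sub]
      refine sub_le_self _ (smul_nonneg (by exact_mod_cast (sq_nonneg ρ)) ?_)
      have : 0 ≤ star w * w := star_mul_self_nonneg w
      rwa [hwa] at this
    have h6 := CStarAlgebra.norm_le_norm_of_nonneg_of_le (star_mul_self_nonneg a) h5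
    rw [CStarRing.norm_star_mul_self, norm_smul, norm_one, mul_one, Complex.norm_real,
      Real.norm_of_nonneg (sq_nonneg ρ)] at h6
    nlinarith [norm_nonneg a]
  have hak : ∀ n : ℕ, a ^ n = s * b ^ n * w := by
    intro n
    induction n with
    | zero => simp [h1]
    | succ n ih =>
      rw [pow_succ, ih, ha, pow_succ]
      calc s * b ^ n * w * (s * b * w) = s * b ^ n * (w * s) * b * w := by simp only [mul_assoc]
        _ = s * (b ^ n * b) * w := by rw [h2, mul_one]; simp only [mul_assoc]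
  have hbk : t (b ^ k) = t (a ^ k) := by
    rw [hak, h.tr _ (mul_mem hsM (pow_mem' hb k)) _ hwM, ← mul_assoc, h2, one_mul]
  rw [hbk]
  calc ‖t (a ^ k)‖ ≤ ‖a ^ k‖ := tau_norm h (pow_mem' haM k)
    _ ≤ ‖a‖ ^ k := norm_pow_le a k
    _ ≤ ρ ^ k := pow_le_pow_left₀ (norm_nonneg _) hna k

/-- a bounded polynomial function of degree at most four has zero coefficients -/
theorem poly_bdd {a₀ a₁ a₂ a₃ a₄ a₅ a₆ : ℂ} {K : ℝ}
    (hK : ∀ l : ℂ, ‖a₀ + l * a₁ + l ^ 2 * a₂ + l ^ 3 * a₃ + l ^ 4 * a₄ + l ^ 5 * a₅ + l ^ 6 * a₆‖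
      ≤ K) : a₁ = 0 := by
  open Polynomial in
  let P : ℂ[X] := C a₀ + X * C a₁ + X ^ 2 * C a₂ + X ^ 3 * C a₃ + X ^ 4 * C a₄ + X ^ 5 * C a₅
    + X ^ 6 * C a₆
  have hP : ∀ l : ℂ, P.eval l
      = a₀ + l * a₁ + l ^ 2 * a₂ + l ^ 3 * a₃ + l ^ 4 * a₄ + l ^ 5 * a₅ + l ^ 6 * a₆ := by
    intro l
    simp only [P, Polynomial.eval_add, Polynomial.eval_mul, Polynomial.eval_C, Polynomial.eval_X,
      Polynomial.eval_pow]
  have hb : Bornology.IsBounded (Set.range fun l : ℂ => P.eval l) := by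
    rw [isBounded_iff_forall_norm_le]
    refine ⟨K, ?_⟩
    rintro _ ⟨l, rfl⟩
    simp only [hP]
    exact hK l
  have hconst : ∀ l : ℂ, P.eval l = P.eval 0 := fun l =>
    Differentiable.apply_eq_apply_of_bounded P.differentiable hb l 0
  have hPC : P = Polynomial.C (P.eval 0) := by
    apply Polynomial.funext
    intro l
    rw [hconst l, Polynomial.eval_C]
  have hc1 : P.coeff 1 = 0 := by
    rw [hPC, Polynomial.coeff_C]
    simp
  have hc2 : P.coeff 1 = a₁ := by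
    simp only [P, Polynomial.coeff_add, Polynomial.coeff_mul_C, Polynomial.coeff_C,
      Polynomial.coeff_X_pow, Polynomial.coeff_X_one]
    simp
  rw [← hc2, hc1]

variable {T : (H →L[ℂ] H) → (H →L[ℂ] H)} {C : ℝ≥0}

structure SBdd (M : VonNeumannAlgebra H) (T : (H →L[ℂ] H) → (H →L[ℂ] H)) (C : ℝ≥0) : Prop where
  mem : ∀ x ∈ M, T x ∈ M
  add : ∀ x ∈ M, ∀ y ∈ M, T (x + y) = T x + T y
  smul : ∀ c : ℂ, ∀ x ∈ M, T (c • x) = c • T x
  bd : ∀ x ∈ M, spectralRadius ℂ (T x) ≤ (C : ℝ≥0∞) * spectralRadius ℂ x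

theorem SBdd.sub (hT : SBdd M T C) {x y : H →L[ℂ] H} (hx : x ∈ M) (hy : y ∈ M) :
    T (x - y) = T x - T y := by
  have h1 : T (-y) = - T y := by
    have := hT.smul (-1) y hy
    simpa using this
  rw [sub_eq_add_neg, hT.add x hx _ (neg_mem hy), h1, sub_eq_add_neg]

theorem specRad_lt (hn : Nontrivial H) (hT : SBdd M T C) {x : H →L[ℂ] H} (hx : x ∈ M) {ρ : ℝ}
    (hρ : (C : ℝ) * ‖x‖ < ρ) : spectralRadius ℂ (T x) < ENNReal.ofReal ρ := by
  have h1 : spectralRadius ℂ (T x) ≤ ENNReal.ofReal ((C : ℝ) * ‖x‖) := by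
    refine (hT.bd x hx).trans ?_
    rw [ENNReal.ofReal_mul C.coe_nonneg, ENNReal.ofReal_coe_nnreal, ofReal_norm]
    gcongr
    exact spectrum.spectralRadius_le_nnnorm x
  refine h1.trans_lt ?_
  exact (ENNReal.ofReal_lt_ofReal_iff (lt_of_le_of_lt (by positivity) hρ)).2 hρ

omit [CompleteSpace H] in
theorem specRad_conj {x v w : H →L[ℂ] H} (h1 : v * w = 1) (h2 : w * v = 1) :
    spectralRadius ℂ (v * x * w) = spectralRadius ℂ x := by
  let u : (H →L[ℂ] H)ˣ := ⟨v, w, h1, h2⟩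
  have : spectrum ℂ (v * x * w) = spectrum ℂ x := spectrum.units_conjugate (u := u)
  simp only [spectralRadius, this]

/-- the moments of the image of the orbit of x are bounded -/
theorem moment_bdd (h : Tr M t) (hT : SBdd M T C) {u x : H →L[ℂ] H} (hu : u ∈ M)
    (huu : u * u = 0) (hx : x ∈ M) (k : ℕ) (l : ℂ) :
    ‖t ((T x + l • T (u * x - x * u) - (l ^ 2) • T (u * x * u)) ^ k)‖ ≤ ((C : ℝ) * ‖x‖ + 1) ^ k := by
  have hn := h.nontrivial
  set y : H →L[ℂ] H := (1 + l • u) * x * (1 - l • u) with hy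
  have m1 : u * x - x * u ∈ M := sub_mem (mul_mem hu hx) (mul_mem hx hu)
  have m2 : u * x * u ∈ M := mul_mem (mul_mem hu hx) hu
  have hyM : y ∈ M := mul_mem (mul_mem (add_mem (one_mem M) (smul_mem' hu l)) hx)
    (sub_mem (one_mem M) (smul_mem' hu l))
  have hy2 : y = x + l • (u * x - x * u) - (l ^ 2) • (u * x * u) := by
    rw [hy]
    simp only [add_mul, mul_sub, one_mul, mul_one, smul_mul_assoc, mul_smul_comm]
    module
  have hTy : T y = T x + l • T (u * x - x * u) - (l ^ 2) • T (u * x * u) := by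
    rw [hy2, hT.sub (add_mem hx (smul_mem' m1 l)) (smul_mem' m2 _),
      hT.add x hx _ (smul_mem' m1 l), hT.smul l _ m1, hT.smul (l ^ 2) _ m2]
  have h1 : (1 + l • u) * (1 - l • u) = 1 := by
    simp only [add_mul, mul_sub, one_mul, mul_one, smul_mul_assoc, mul_smul_comm, huu, smul_zero]
    module
  have h2 : (1 - l • u) * (1 + l • u) = 1 := by
    simp only [sub_mul, mul_add, one_mul, mul_one, smul_mul_assoc, mul_smul_comm, huu, smul_zero]
    module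
  have h3 : spectralRadius ℂ y = spectralRadius ℂ x := specRad_conj h1 h2
  have h4 : spectralRadius ℂ (T y) < ENNReal.ofReal ((C : ℝ) * ‖x‖ + 1) := by
    have h5 : spectralRadius ℂ (T y) ≤ ENNReal.ofReal ((C : ℝ) * ‖x‖) := by
      refine (hT.bd y hyM).trans ?_
      rw [h3, ENNReal.ofReal_mul C.coe_nonneg, ENNReal.ofReal_coe_nnreal, ofReal_norm]
      gcongr
      exact spectrum.spectralRadius_le_nnnorm x
    refine h5.trans_lt ?_
    exact (ENNReal.ofReal_lt_ofReal_iff (by positivity)).2 (by linarith)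
  rw [← hTy]
  exact rota h (hT.mem y hyM) (by positivity) h4 k

theorem Tr.sum7 (h : Tr M t) {p₀ p₁ p₂ p₃ p₄ p₅ p₆ : H →L[ℂ] H} (m₀ : p₀ ∈ M) (m₁ : p₁ ∈ M)
    (m₂ : p₂ ∈ M) (m₃ : p₃ ∈ M) (m₄ : p₄ ∈ M) (m₅ : p₅ ∈ M) (m₆ : p₆ ∈ M) (l : ℂ) :
    t (p₀ + l • p₁ + l ^ 2 • p₂ + l ^ 3 • p₃ + l ^ 4 • p₄ + l ^ 5 • p₅ + l ^ 6 • p₆)
      = t p₀ + l * t p₁ + l ^ 2 * t p₂ + l ^ 3 * t p₃ + l ^ 4 * t p₄ + l ^ 5 * t p₅
        + l ^ 6 * t p₆ := by
  have n1 := add_mem m₀ (smul_mem' m₁ l)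
  have n2 := add_mem n1 (smul_mem' m₂ (l ^ 2))
  have n3 := add_mem n2 (smul_mem' m₃ (l ^ 3))
  have n4 := add_mem n3 (smul_mem' m₄ (l ^ 4))
  have n5 := add_mem n4 (smul_mem' m₅ (l ^ 5))
  rw [h.add _ n5 _ (smul_mem' m₆ _), h.add _ n4 _ (smul_mem' m₅ _), h.add _ n3 _ (smul_mem' m₄ _),
    h.add _ n2 _ (smul_mem' m₃ _), h.add _ n1 _ (smul_mem' m₂ _), h.add _ m₀ _ (smul_mem' m₁ _),
    h.smul _ _ m₁, h.smul _ _ m₂, h.smul _ _ m₃, h.smul _ _ m₄, h.smul _ _ m₅, h.smul _ _ m₆]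

theorem C1' (h : Tr M t) (hT : SBdd M T C) {u x : H →L[ℂ] H} (hu : u ∈ M)
    (huu : u * u = 0) (hx : x ∈ M) : t (T (u * x - x * u)) = 0 := by
  set X := T x with hX
  set Y := T (u * x - x * u) with hY
  set Z := T (u * x * u) with hZ
  have mX : X ∈ M := hT.mem x hx
  have mY : Y ∈ M := hT.mem _ (sub_mem (mul_mem hu hx) (mul_mem hx hu))
  have mZ : Z ∈ M := hT.mem _ (mul_mem (mul_mem hu hx) hu)
  have z : (0 : H →L[ℂ] H) ∈ M := zero_mem M
  have key := fun l => moment_bdd h hT hu huu hx 1 l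
  rw [← hX, ← hY, ← hZ] at key
  have e : ∀ l : ℂ, (X + l • Y - l ^ 2 • Z) ^ 1
      = X + l • Y + l ^ 2 • (-Z) + l ^ 3 • (0 : H →L[ℂ] H) + l ^ 4 • (0 : H →L[ℂ] H)
        + l ^ 5 • (0 : H →L[ℂ] H) + l ^ 6 • (0 : H →L[ℂ] H) := by
    intro l
    rw [pow_one]
    module
  refine poly_bdd (a₀ := t X) (a₂ := t (-Z)) (a₃ := t 0) (a₄ := t 0) (a₅ := t 0) (a₆ := t 0)
    (K := ((C : ℝ) * ‖x‖ + 1) ^ 1) ?_
  intro l
  rw [← h.sum7 mX mY (neg_mem mZ) z z z z, ← e]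
  exact key l

theorem C2' (h : Tr M t) (hT : SBdd M T C) {u x : H →L[ℂ] H} (hu : u ∈ M)
    (huu : u * u = 0) (hx : x ∈ M) : t (T x * T (u * x - x * u)) = 0 := by
  set X := T x with hX
  set Y := T (u * x - x * u) with hY
  set Z := T (u * x * u) with hZ
  have mX : X ∈ M := hT.mem x hx
  have mY : Y ∈ M := hT.mem _ (sub_mem (mul_mem hu hx) (mul_mem hx hu))
  have mZ : Z ∈ M := hT.mem _ (mul_mem (mul_mem hu hx) hu)
  have z : (0 : H →L[ℂ] H) ∈ M := zero_mem M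
  have key := fun l => moment_bdd h hT hu huu hx 2 l
  rw [← hX, ← hY, ← hZ] at key
  have e : ∀ l : ℂ, (X + l • Y - l ^ 2 • Z) ^ 2
      = X * X + l • (X * Y + Y * X) + l ^ 2 • (Y * Y - X * Z - Z * X) + l ^ 3 • (-(Y * Z) - Z * Y)
        + l ^ 4 • (Z * Z) + l ^ 5 • (0 : H →L[ℂ] H) + l ^ 6 • (0 : H →L[ℂ] H) := by
    intro l
    rw [pow_two]
    simp only [add_mul, mul_add, sub_mul, mul_sub, smul_mul_assoc, mul_smul_comm]
    module
  have h1 : t (X * Y + Y * X) = 0 := by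
    refine poly_bdd (a₀ := t (X * X)) (a₂ := t (Y * Y - X * Z - Z * X))
      (a₃ := t (-(Y * Z) - Z * Y)) (a₄ := t (Z * Z)) (a₅ := t 0) (a₆ := t 0)
      (K := ((C : ℝ) * ‖x‖ + 1) ^ 2) ?_
    intro l
    rw [← h.sum7 (mul_mem mX mX) (add_mem (mul_mem mX mY) (mul_mem mY mX))
      (sub_mem (sub_mem (mul_mem mY mY) (mul_mem mX mZ)) (mul_mem mZ mX))
      (sub_mem (neg_mem (mul_mem mY mZ)) (mul_mem mZ mY)) (mul_mem mZ mZ) z z, ← e]
    exact key l
  rw [h.add _ (mul_mem mX mY) _ (mul_mem mY mX), h.tr Y mY X mX, ← two_mul] at h1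
  exact (mul_eq_zero.1 h1).resolve_left two_ne_zero

theorem C3' (h : Tr M t) (hT : SBdd M T C) {u x : H →L[ℂ] H} (hu : u ∈ M)
    (huu : u * u = 0) (hx : x ∈ M) : t (T x * T x * T (u * x - x * u)) = 0 := by
  set X := T x with hX
  set Y := T (u * x - x * u) with hY
  set Z := T (u * x * u) with hZ
  have mX : X ∈ M := hT.mem x hx
  have mY : Y ∈ M := hT.mem _ (sub_mem (mul_mem hu hx) (mul_mem hx hu))
  have mZ : Z ∈ M := hT.mem _ (mul_mem (mul_mem hu hx) hu)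
  have z : (0 : H →L[ℂ] H) ∈ M := zero_mem M
  have key := fun l => moment_bdd h hT hu huu hx 3 l
  rw [← hX, ← hY, ← hZ] at key
  have e : ∀ l : ℂ, (X + l • Y - l ^ 2 • Z) ^ 3
      = X * X * X + l • (X * X * Y + X * Y * X + Y * X * X)
        + l ^ 2 • (X * Y * Y + Y * X * Y + Y * Y * X - (X * X * Z + X * Z * X + Z * X * X))
        + l ^ 3 • (Y * Y * Y - (X * Y * Z + X * Z * Y + Y * X * Z + Y * Z * X + Z * X * Y
            + Z * Y * X))
        + l ^ 4 • ((X * Z * Z + Z * X * Z + Z * Z * X) - (Y * Y * Z + Y * Z * Y + Z * Y * Y))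
        + l ^ 5 • (Y * Z * Z + Z * Y * Z + Z * Z * Y)
        + l ^ 6 • (-(Z * Z * Z)) := by
    intro l
    rw [pow_succ, pow_two]
    simp only [add_mul, mul_add, sub_mul, mul_sub, smul_mul_assoc, mul_smul_comm, mul_assoc]
    module
  have m3 : ∀ {a b c : H →L[ℂ] H}, a ∈ M → b ∈ M → c ∈ M → a * b * c ∈ M :=
    fun ha hb hc => mul_mem (mul_mem ha hb) hc
  have h1 : t (X * X * Y + X * Y * X + Y * X * X) = 0 := by
    refine poly_bdd (a₀ := t (X * X * X))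
      (a₂ := t (X * Y * Y + Y * X * Y + Y * Y * X - (X * X * Z + X * Z * X + Z * X * X)))
      (a₃ := t (Y * Y * Y - (X * Y * Z + X * Z * Y + Y * X * Z + Y * Z * X + Z * X * Y
            + Z * Y * X)))
      (a₄ := t ((X * Z * Z + Z * X * Z + Z * Z * X) - (Y * Y * Z + Y * Z * Y + Z * Y * Y)))
      (a₅ := t (Y * Z * Z + Z * Y * Z + Z * Z * Y)) (a₆ := t (-(Z * Z * Z)))
      (K := ((C : ℝ) * ‖x‖ + 1) ^ 3) ?_
    intro l
    rw [← h.sum7 (m3 mX mX mX) (add_mem (add_mem (m3 mX mX mY) (m3 mX mY mX)) (m3 mY mX mX))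
      (sub_mem (add_mem (add_mem (m3 mX mY mY) (m3 mY mX mY)) (m3 mY mY mX))
        (add_mem (add_mem (m3 mX mX mZ) (m3 mX mZ mX)) (m3 mZ mX mX)))
      (sub_mem (m3 mY mY mY) (add_mem (add_mem (add_mem (add_mem (add_mem (m3 mX mY mZ)
        (m3 mX mZ mY)) (m3 mY mX mZ)) (m3 mY mZ mX)) (m3 mZ mX mY)) (m3 mZ mY mX)))
      (sub_mem (add_mem (add_mem (m3 mX mZ mZ) (m3 mZ mX mZ)) (m3 mZ mZ mX))
        (add_mem (add_mem (m3 mY mY mZ) (m3 mY mZ mY)) (m3 mZ mY mY)))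
      (add_mem (add_mem (m3 mY mZ mZ) (m3 mZ mY mZ)) (m3 mZ mZ mY))
      (neg_mem (m3 mZ mZ mZ)), ← e]
    exact key l
  have e1 : t (X * Y * X) = t (X * X * Y) := by
    rw [h.tr _ (mul_mem mX mY) _ mX, ← mul_assoc]
  have e2 : t (Y * X * X) = t (X * X * Y) := by
    rw [mul_assoc, h.tr _ mY _ (mul_mem mX mX)]
  rw [h.add _ (add_mem (m3 mX mX mY) (m3 mX mY mX)) _ (m3 mY mX mX),
    h.add _ (m3 mX mX mY) _ (m3 mX mY mX), e1, e2] at h1
  have h2 : (3 : ℂ) * t (X * X * Y) = 0 := by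
    linear_combination h1
  exact (mul_eq_zero.1 h2).resolve_left three_ne_zero

theorem moment_norm (h : Tr M t) (hT : SBdd M T C) {x : H →L[ℂ] H} (hx : x ∈ M) {k : ℕ}
    (hk : k ≠ 0) : ‖t (T x ^ k)‖ ≤ ((C : ℝ) + 1) ^ k * ‖x‖ ^ k := by
  have hn := h.nontrivial
  by_cases h0 : x = 0
  · have hT0 : T x = 0 := by
      have := hT.smul 0 x hx
      rw [h0] at this ⊢
      simpa using this
    rw [hT0, zero_pow hk, h.zero, norm_zero]
    positivity
  · have hx0 : 0 < ‖x‖ := norm_pos_iff.2 h0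
    rw [← mul_pow]
    refine rota h (hT.mem x hx) (by positivity) ?_ k
    exact specRad_lt hn hT hx (by nlinarith)

section Final

variable (h : Tr M t) (hT1 : ∀ x ∈ M, T x ∈ M)
  (hadd : ∀ x ∈ M, ∀ y ∈ M, T (x + y) = T x + T y)
  (hsmul : ∀ c : ℂ, ∀ x ∈ M, T (c • x) = c • T x)
  (hr : ∀ x ∈ M, spectralRadius ℂ (T x) ≤ (C : ENNReal) * spectralRadius ℂ x)

include h hT1 hadd hsmul hr

theorem C1 {u : H →L[ℂ] H} (hu : u ∈ M) (huu : u * u = 0) {x : H →L[ℂ] H} (hx : x ∈ M) :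
    t (T (u * x - x * u)) = 0 :=
  C1' h ⟨hT1, hadd, hsmul, hr⟩ hu huu hx

theorem C2 {u : H →L[ℂ] H} (hu : u ∈ M) (huu : u * u = 0) {x : H →L[ℂ] H} (hx : x ∈ M) :
    t (T x * T (u * x - x * u)) = 0 :=
  C2' h ⟨hT1, hadd, hsmul, hr⟩ hu huu hx

theorem C3 {u : H →L[ℂ] H} (hu : u ∈ M) (huu : u * u = 0) {x : H →L[ℂ] H} (hx : x ∈ M) :
    t (T x * T x * T (u * x - x * u)) = 0 :=
  C3' h ⟨hT1, hadd, hsmul, hr⟩ hu huu hx

theorem C4 : ∃ K : ℝ, ∀ x ∈ M, ‖t (T x)‖ ≤ K * ‖x‖ := by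
  refine ⟨((C : ℝ) + 1) ^ 1, fun x hx => ?_⟩
  have := moment_norm h (⟨hT1, hadd, hsmul, hr⟩ : SBdd M T C) hx one_ne_zero
  simpa using this

theorem C5 : ∃ K : ℝ, ∀ x ∈ M, ‖t (T x * T x)‖ ≤ K * ‖x‖ ^ 2 := by
  refine ⟨((C : ℝ) + 1) ^ 2, fun x hx => ?_⟩
  have := moment_norm h (⟨hT1, hadd, hsmul, hr⟩ : SBdd M T C) hx two_ne_zero
  rwa [pow_two (T x)] at this

theorem C6 : ∃ K : ℝ, ∀ x ∈ M, ‖t (T x * T x * T x)‖ ≤ K * ‖x‖ ^ 3 := by
  refine ⟨((C : ℝ) + 1) ^ 3, fun x hx => ?_⟩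
  have := moment_norm h (⟨hT1, hadd, hsmul, hr⟩ : SBdd M T C) hx three_ne_zero
  rwa [pow_succ (T x), pow_two (T x)] at this

end Final

end Pool.Agent.Helper964.SB
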